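import Pool.Agent.W900.CH.EFar
import Pool.Agent.W900.CH.Thin

/-!
# How many strings of a random oracle have to be changed to make `E` and `NE` equal?

The number of changes is measured by a function `g`: the oracle `A` is obtained from `O` by changing,
for all large `n`, at most `g n` of the strings of length at most `n`. If for every `ε > 0` there are
infinitely many `n` with `g n ≤ n ^ ε`, then `E^A ≠ NE^A` for almost every oracle `O` and all oracles
`A` that are obtained from `O` by at most `g` changes, wherever these changes are made (an adversary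
who knows the whole oracle chooses the positions). Otherwise every oracle `O` can be changed, by at
most `g` changes, into an oracle `A` with `E^A = NE^A` (even `E^A = ESPACE^A`), and for almost every
oracle `O` one can have in addition `NP^A ⊄ coNP^A / poly`, so `P^A ≠ NP^A`.

So the threshold is exactly at the functions `n ^ ε`.
-/

set_option autoImplicit false

namespace Pool.Agent.Results.MP_8c2300_lc.ChangedStrings

open Pool.Agent.NPC Pool.Agent.H620R2.Gauge Pool.Agent.H622R2.Exp Pool.Agent.W900.CH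
open Pool.Agent.H628R3.RO (randomOracle)
open MeasureTheory Filter

theorem result (g : ℕ → ℝ) :
    ((∀ ε : ℝ, 0 < ε → ∃ᶠ n : ℕ in atTop, g n ≤ (n : ℝ) ^ ε) →
      ∀ᵐ O ∂randomOracle, ∀ A : Oracle, Close g O A → ∃ L, InNTime Lin A L ∧ ¬ InTime Lin A L) ∧
    ((¬ ∀ ε : ℝ, 0 < ε → ∃ᶠ n : ℕ in atTop, g n ≤ (n : ℝ) ^ ε) →
      (∀ O : Oracle, ∃ A : Oracle, Close g O A ∧ (∀ L, InTime Lin A L ↔ InNTime Lin A L) ∧
        ∀ L, InSpace Lin A L → InTime Lin A L) ∧
      ∀ᵐ O ∂randomOracle, ∃ A : Oracle, Close g O A ∧ (∀ L, InTime Lin A L ↔ InNTime Lin A L) ∧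
        (∀ L, InSpace Lin A L → InTime Lin A L) ∧ ∃ L, IsNP A L ∧ ¬ WithAdvice (IsNP A) Lᶜ) := by
  refine ⟨fun hg => ?_, fun hg => ?_⟩
  · filter_upwards [ae_far_E hg] with O hO A hA
    exact ⟨hit2 A, hit2_ntime good_Lin A, hO A hA⟩
  · push Not at hg
    obtain ⟨ε, hε, hg⟩ := hg
    obtain ⟨Z, hZ, h⟩ := exists_thin_E hε
    have hc : ∀ O A : Oracle, (∀ y ∉ Z, A y = O y) → Close g O A := by
      intro O A hA
      refine close_of_thin ?_ hA
      filter_upwards [hZ, hg] with n h1 h2
      exact h1.trans h2.le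
    have hE : ∀ A : Oracle, (∀ L, InSpace Lin A L → InTime Lin A L) →
        ∀ L, InTime Lin A L ↔ InNTime Lin A L :=
      fun A hA L => ⟨fun h => h.isNTime, fun h => hA L (h.isSpace good_Lin)⟩
    refine ⟨fun O => ?_, ?_⟩
    · obtain ⟨A, h1, h2⟩ := h O
      exact ⟨A, hc O A h1, hE A h2, h2⟩
    · filter_upwards [ae_coNP (g := fun n => (n : ℝ) ^ ε)
        (cond_of_pow hε (Eventually.of_forall fun n => le_rfl))] with O hO
      obtain ⟨A, h1, h2⟩ := h O
      exact ⟨A, hc O A h1, hE A h2, h2, hO A (close_of_thin hZ h1)⟩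

end Pool.Agent.Results.MP_8c2300_lc.ChangedStrings
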