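import Pool.Agent.W900.IM.Fin

/-!
# How many strings of a random oracle have to be changed to destroy the immune sets?

Relative to almost every oracle, `E ≠ NE`, and this separation is strong: some set in `NE` (even in
`NP`) is `E`-bi-immune, that is, it splits every infinite set in `E` into two infinite parts. The
number of changes is measured by a function `g`: the oracle `A` is obtained from `O` by changing, for
all large `n`, at most `g n` of the strings of length at most `n`. We show:

* if `g` does not tend to infinity, then the separation remains strong: for almost every `O` and all
  `A` obtained by at most `g` changes, some set in `NP^A` splits all infinite sets in `E^A`;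
* if `g` tends to infinity, however slowly, then almost every oracle `O` can be changed, by at most
  `g` changes, such that no set in `ESPACE^A` (so no set in `NE^A`) is immune against `E^A`: every
  infinite set in `ESPACE^A` has an infinite subset in `E^A`, although still `E^A ≠ NE^A`, the
  polynomial hierarchy is infinite even against polynomial advice, and there are exponentially hard
  one-way functions.

So the threshold for strong separations is at the functions that tend to infinity, while the
threshold for the separation itself is at the functions `n ^ ε`.

(One change in a block of `2 ^ (3 n + 1)` strings gives the sum of the indices of the ones any value;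
the value consists of `2 n` zeros, which tell that the block has been changed, and of an element of
length `n` of the set. The adversary waits for a length with an element, and every infinite set has
its own share of the allowed changes.)
-/

set_option autoImplicit false

namespace Pool.Agent.Results.MP_8c2300_lc.ImmuneSets

open Filter MeasureTheory Pool.Agent.NPC Pool.Agent.H620R2.Gauge
open Pool.Agent.W911.KM (IsE)
open Pool.Agent.W911.AL (IsSigma)
open Pool.Agent.W900.CH (Close)
open Pool.Agent.W900.IM (Splits)
open Pool.Agent.W900.OC (Hard)
open Pool.Agent.H622R2.Exp (InSpace InNTime Lin)
open Pool.Agent.H591R3.PHG (IsSig IsSigPoly)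
open Pool.Agent.H628R3.RO (randomOracle)

theorem result : ∀ᵐ O ∂randomOracle,
    (∀ g : ℕ → ℝ, ¬ Tendsto g atTop atTop → ∀ A : Oracle, Close g O A →
      ∃ L, IsSigma A (fun _ => 1) L ∧ Splits A L) ∧
    ∀ g : ℕ → ℝ, Tendsto g atTop atTop → ∃ A : Oracle, Close g O A ∧
      (∀ L : Set (List Bool), L.Infinite → InSpace Lin A L → ∃ S ⊆ L, S.Infinite ∧ IsE A S) ∧
      (∃ L, InNTime Lin A L ∧ ¬ IsE A L) ∧
      (∀ k, ∃ L, IsSig A (k + 1) L ∧ ¬ IsSigPoly A k L) ∧ ∃ f, Hard A f :=
  Pool.Agent.W900.IM.ae_main

end Pool.Agent.Results.MP_8c2300_lc.ImmuneSets
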